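import Pool.Agent.Helper30.BG.Goals

/-!
# Project BG (MP_66e6f4_an), packet C
-/

open InnerProductSpace Metric Set Filter Topology MeasureTheory
open scoped ContDiff Laplacian

namespace Pool.Agent.Helper5.BG

open Pool.Agent.Helper30.BG

theorem abs_coord_le (y : E3) : |y 0| ≤ ‖y‖ := by
  have h := PiLp.norm_apply_le y 0
  simpa using h

/-- An upper bound can be improved by a factor. -/
theorem improve (hBAR : S_BAR) (hA : S_A) {u Y g : E3 → ℝ} {a0 a1 α β κp κm M : ℝ}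
    (h : YSol u Y g a0 a1 α β κp κm M) {k : ℝ} (hk : 0 < k) (hY : ∀ y, Y y ≤ k) (q : E3) :
    Y q ≤ 63 / 64 * k := by
  obtain ⟨r0, hr0⟩ := hA u Y g a0 a1 α β κp κm M h (1 / 2) (by norm_num) (k / 2) (by linarith)
  obtain ⟨R0, hR0⟩ := h.subp (α / 10) (by linarith [h.α_pos])
  have hα := h.α_pos
  set R : ℝ := max (max 1 (2 * |r0|)) (max (max |R0| (2 * |a1| / α)) (2 * ‖q‖)) with hR
  have hR1 : 1 ≤ R := le_trans (le_max_left _ _) (le_max_left _ _)
  have hR2 : 2 * |r0| ≤ R := le_trans (le_max_right _ _) (le_max_left _ _)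
  have hR3 : |R0| ≤ R :=
    le_trans (le_trans (le_max_left _ _) (le_max_left _ _)) (le_max_right _ _)
  have hR4 : 2 * |a1| / α ≤ R :=
    le_trans (le_trans (le_max_right _ _) (le_max_left _ _)) (le_max_right _ _)
  have hR5 : 2 * ‖q‖ ≤ R := le_trans (le_max_right _ _) (le_max_right _ _)
  have hRpos : 0 < R := by linarith
  set x : E3 := R • eb 0 with hx
  have hx0 : x 0 = R := by simp [hx, eb_apply]
  have hxn : ‖x‖ = R := by rw [hx, norm_smul, norm_eb, Real.norm_eq_abs, abs_of_pos hRpos, mul_one]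
  have hcoord : ∀ y : E3, |y 0 - R| ≤ ‖y - x‖ := by
    intro y
    have h1 := abs_coord_le (y - x)
    simpa [hx0] using h1
  have hnorm1 : ∀ y : E3, ‖y‖ ≤ R + ‖y - x‖ := by
    intro y
    calc ‖y‖ = ‖x + (y - x)‖ := by congr 1; abel
      _ ≤ ‖x‖ + ‖y - x‖ := norm_add_le _ _
      _ = R + ‖y - x‖ := by rw [hxn]
  have hc1 : ∀ y : E3, ‖y - x‖ ≤ R / 8 → Y y ≤ k / 2 := by
    intro y hy
    have h1 := abs_le.1 (hcoord y)
    have h2 := hnorm1 y
    have h3 : 7 * R / 8 ≤ y 0 := by linarith [h1.1]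
    have h4 := (le_abs_self (y 0)).trans (abs_coord_le y)
    refine hr0 y (by linarith) ?_
    have := le_abs_self r0
    linarith [abs_nonneg r0]
  have hc2 : ∀ y ∈ ball x (4 * R), x 0 < y 0 → g y = 0 := by
    intro y hy hy0
    rw [mem_ball, dist_eq_norm] at hy
    rw [hx0] at hy0
    have h2 := hnorm1 y
    have h4 := (le_abs_self (y 0)).trans (abs_coord_le y)
    have h5 := hR0 y (by linarith) (by linarith [le_abs_self R0])
    refine h.gup y ?_
    have h6 : α / 10 * ‖y‖ ≤ α / 10 * (5 * R) :=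
      mul_le_mul_of_nonneg_left (by linarith) (by linarith)
    have h7 : α * R ≤ α * y 0 := mul_le_mul_of_nonneg_left hy0.le hα.le
    have h8 : 2 * |a1| ≤ α * R := by
      rw [div_le_iff₀ hα] at hR4
      linarith
    have h9 := le_abs_self a1
    linarith
  have hHD : ∀ y, HD2 (fun z => k - Y z) y (0 - fun i => Pool.Agent.Helper30.BG.pd i Y y)
      (0 - Δ Y y) := fun y => (HD2.const k y).sub (HD2.mk' h.cd.contDiffAt)
  have hq1 : ‖q - x‖ ≤ 3 * R / 2 := by
    have := norm_sub_le q x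
    rw [hxn] at this
    linarith
  have hq2 : R / 2 ≤ ‖q - x‖ := by
    have h1 := norm_sub_norm_le x q
    rw [hxn, norm_sub_rev] at h1
    linarith
  have key := hBAR (fun y => k - Y y) g M (k / 2) (R / 8) (4 * R) x (by linarith) (by linarith)
    (by linarith) (contDiff_const.sub h.cd) h.g0 h.gM hc2
    (by
      intro y _
      rw [(hHD y).lap, (hHD y).pd 0]
      have h1 := h.eq y
      have h2 : 0 ≤ g y * ∑ i, Pool.Agent.Helper30.BG.pd i Y y ^ 2 :=
        mul_nonneg (h.g0 y) (Finset.sum_nonneg fun i _ => sq_nonneg _)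
      simp only [Pi.sub_apply, Pi.zero_apply]
      linarith)
    (fun y _ => by linarith [hY y])
    (by
      intro y hy
      rw [mem_sphere, dist_eq_norm] at hy
      linarith [hc1 y hy.le])
    q (by rw [mem_closedBall, dist_eq_norm]; linarith) (by linarith)
  have e1 : (3 * R / 2)⁻¹ ≤ ‖q - x‖⁻¹ := inv_anti₀ (by linarith) hq1
  have e2 : k / 64 ≤ k / 2 * (‖q - x‖⁻¹ - (4 * R)⁻¹) / ((R / 8)⁻¹ - (4 * R)⁻¹) := by
    have e3 : (R / 8)⁻¹ - (4 * R)⁻¹ = 31 / (4 * R) := by field_simp; norm_num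
    have e4 : 5 / (12 * R) ≤ ‖q - x‖⁻¹ - (4 * R)⁻¹ := by
      have e5 : 5 / (12 * R) = (3 * R / 2)⁻¹ - (4 * R)⁻¹ := by field_simp; norm_num
      rw [e5]
      linarith
    rw [e3, le_div_iff₀ (by positivity)]
    calc k / 64 * (31 / (4 * R)) ≤ k / 2 * (5 / (12 * R)) := by
          rw [div_mul_div_comm, div_mul_div_comm, div_le_div_iff₀ (by positivity) (by positivity)]
          nlinarith [mul_pos hk hRpos]
      _ ≤ k / 2 * (‖q - x‖⁻¹ - (4 * R)⁻¹) := mul_le_mul_of_nonneg_left e4 (by linarith)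
  have e6 := e2.trans key
  linarith

theorem c (hBAR : S_BAR) (hA : S_A) (hN : S_N) : S_C := by
  intro u Y g a0 a1 α β κp κm M h x
  obtain ⟨C, hC⟩ := hN u Y g a0 a1 α β κp κm M h
  have hb : BddAbove (range Y) := ⟨C, by rintro _ ⟨y, rfl⟩; exact hC y⟩
  have hne : (range Y).Nonempty := ⟨Y x, x, rfl⟩
  set k := sSup (range Y) with hk
  have hY : ∀ y, Y y ≤ k := fun y => le_csSup hb ⟨y, rfl⟩
  by_contra hcon
  have hx : 0 < Y x := lt_of_le_of_ne (h.nn x) (Ne.symm hcon)
  have hk0 : 0 < k := lt_of_lt_of_le hx (hY x)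
  have h1 : k ≤ 63 / 64 * k := csSup_le hne (by
    rintro _ ⟨y, rfl⟩
    exact improve hBAR hA h hk0 hY y)
  linarith

end Pool.Agent.Helper5.BG
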